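import Pool.Agent.Y138.TU.Main

/-!
# The Tate conjecture for the products with all independent varieties
-/

set_option autoImplicit false

open CategoryTheory AlgebraicGeometry NumberField
open scoped TensorProduct

universe u v

namespace Pool.Agent.Y138.TU

open Pool.Agent.H914 Pool.Agent.H914.VarClass Pool.Agent.H914.VarClass.Obj
  Pool.Agent.H914.WeilCohomology Pool.Agent.H281R3.HT Pool.Agent.W552 Pool.Agent.W534
  Pool.Agent.W458.RK Pool.Agent.W458.MF Pool.Agent.TH132.A Pool.Agent.TH121.KT Pool.Agent.H447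

variable {k : Type u} [Field k] {𝒱 : VarClass k} {ops : CycleOps 𝒱}
  {W : WeilCohomology.{u, v} ops} {p : ℕ} [Fact p.Prime] {Φ : FrobSystem W p}
  {ι : AlgebraicClosure ℚ →+* PadicAlgCl p}
  {r : ℕ} {X : Fin r → 𝒱.Obj} {e : Fin r → ℕ} {K : Fin r → Type} [∀ i, Field (K i)]
  [∀ i, NumberField (K i)] [∀ i, IsCMField (K i)]
  {α : ∀ i, K i} {Z U : 𝒱.Obj} {PP : W.K → Prop}

lemma semisimple_of_times {Z : 𝒱.Obj} {p : ℕ} {Φ : FrobSystem W p} (hp : 1 < p)
    (hT : TateTimesP Φ PP Z) (h1PP : PP 1) (c : ℕ) :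
    SemisimpleTateIn Φ Z c := by
  intro s hs x hx
  obtain ⟨⟨a, ha⟩, -⟩ := (mem_genTate Φ).1 hx
  rw [← cycSub_eq]
  exact gen_algP hp hT h1PP hs ha

theorem main [IsAlgClosed W.K] (hT : ∀ i, HasWeilNumber Φ (X i) (e i) (α i))
    {n : Fin r → ℕ} (hZ : IsProductOfCopies W X n Z)
    {L : IntermediateField ℚ (AlgebraicClosure ℚ)}
    {S : Fin r → IntermediateField ℚ (AlgebraicClosure ℚ)}
    (hS : ∀ i, IsSlopeField p ι (S i) (α i))
    (hind : ∀ i, IsIndependent p ι (α i) (tower S L i) (n i)) (U : 𝒱.Obj)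
    (hU : FrobeniusSlopes Φ ι L U) (c : ℕ) :
      (TateIn Φ (Z.prod U) c ↔
        ∀ i ≤ c, (∃ x, Z.IsCyc i x ∧ ¬ HomEq W x 0) → TateIn Φ U (c - i)) ∧
      (SemisimpleTateIn Φ (Z.prod U) c ↔
        ∀ i ≤ c, (∃ x, Z.IsCyc i x ∧ ¬ HomEq W x 0) → SemisimpleTateIn Φ U (c - i)) := by
  have hTT := tateTimesP_products hT hZ hS hind
  have hp := (Fact.out : p.Prime).one_lt
  obtain ⟨Q, hQ, hLQ, hroot⟩ := hU
  have key : ∀ a, TateK Φ (Z.prod U) a c ↔
      ∀ i ≤ c, (∃ x, Z.IsCyc i x ∧ ¬ HomEq W x 0) → TateK Φ U a (c - i) := fun a =>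
    tateK_prod_iff hp hTT (inL_one L) (fun ν n hn h => inL_pow L ν n hn h)
      (fun ν hν => ⟨Q, ν, 1, one_pos, hQ, hLQ, hroot ν hν, (pow_one ν).symm⟩)
  refine ⟨?_, ?_⟩
  · rw [tateIn_iff, key 1]
    simp only [tateIn_iff]
  · simp only [semisimple_iff, key]
    constructor
    · intro h i hi hx a
      exact h a i hi hx
    · intro h a i hi hx
      exact h i hi hx a

end Pool.Agent.Y138.TU
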