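import Pool.Agent.TH121.KT.Word3
import Pool.Agent.H281R3.HT.Mid

/-!
# The Tate conjecture for the products `Z × U`
-/

set_option autoImplicit false

open CategoryTheory AlgebraicGeometry NumberField
open scoped TensorProduct

universe u v

namespace Pool.Agent.Y138.TU

open Pool.Agent.H914 Pool.Agent.H914.VarClass Pool.Agent.H914.VarClass.Obj
  Pool.Agent.H914.WeilCohomology Pool.Agent.H281R3.HT Pool.Agent.W552 Pool.Agent.W534
  Pool.Agent.W458.RK Pool.Agent.W458.MF Pool.Agent.TH132.A Pool.Agent.TH121.KT Pool.Agent.H447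

variable {k : Type u} [Field k] {𝒱 : VarClass k} {ops : CycleOps 𝒱}
  {W : WeilCohomology.{u, v} ops} {X Z U : 𝒱.Obj} {p : ℕ} {Φ : FrobSystem W p}
  {PP : W.K → Prop}

/-- The classes of degree `2 c` which are killed by `(F ^ M - q ^ (c M)) ^ a` for some `M`, where `F`
is the Frobenius endomorphism over a field with `q` elements, are combinations of classes of
cycles. -/
def TateK (Φ : FrobSystem W p) (X : 𝒱.Obj) (a c : ℕ) : Prop :=
  ∀ s, 0 < s → ∀ x ∈ W.gr X (2 * c), Killed (frob Φ X s) ((card Φ X s : W.K) ^ c) a x →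
    x ∈ spanCycles W X c

lemma killed_iff_frob {s a c : ℕ} {x : W.H X} :
    Killed (frob Φ X s) ((card Φ X s : W.K) ^ c) a x ↔ ∃ M, 0 < M ∧
      ((frob Φ X (s * M) - ((card Φ X (s * M) : W.K) ^ c) • (1 : Module.End W.K (W.H X))) ^ a) x
        = 0 := by
  unfold Killed
  refine exists_congr fun M => and_congr_right fun _ => ?_
  rw [frob_mul_eq, card_mul_eq, Nat.cast_pow, ← pow_mul, ← pow_mul, mul_comm c M]

lemma tateIn_iff {c : ℕ} : TateIn Φ X c ↔ TateK Φ X 1 c := by
  constructor
  · intro h s hs x hx hk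
    obtain ⟨M, hM, hk⟩ := killed_iff_frob.1 hk
    refine h x ⟨hx, s * M, Nat.mul_pos hs hM, ?_⟩
    rw [pow_one, LinearMap.sub_apply, LinearMap.smul_apply, Module.End.one_apply,
      sub_eq_zero] at hk
    rw [← card_pow]
    exact hk
  · rintro h x ⟨hx, s, hs, hk⟩
    refine h s hs x hx (killed_iff_frob.2 ⟨1, one_pos, ?_⟩)
    rw [pow_one, LinearMap.sub_apply, LinearMap.smul_apply, Module.End.one_apply,
      sub_eq_zero, mul_one, card_pow]
    exact hk

lemma semisimple_iff {c : ℕ} : SemisimpleTateIn Φ X c ↔ ∀ a, TateK Φ X a c := by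
  constructor
  · intro h a s hs x hx hk
    obtain ⟨M, hM, hk⟩ := killed_iff_frob.1 hk
    exact h (s * M) (Nat.mul_pos hs hM) ((mem_genTate Φ).2 ⟨⟨a, hk⟩, hx⟩)
  · intro h s hs x hx
    obtain ⟨⟨a, ha⟩, hgr⟩ := (mem_genTate Φ).1 hx
    refine h a s hs x hgr (killed_iff_frob.2 ⟨1, one_pos, ?_⟩)
    rw [mul_one]
    exact ha

/-- The comparison of the Frobenius endomorphisms of `Z × U` with those of the factors. -/
lemma exists_comm (Φ : FrobSystem W p) (Z U : 𝒱.Obj) : ∃ A B C : ℕ, 0 < A ∧ 0 < B ∧ 0 < C ∧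
    A * Φ.e (Z.prod U) = B * Φ.e Z ∧ A * Φ.e (Z.prod U) = C * Φ.e U ∧
    ∀ (t : ℕ) (x : W.H Z ⊗[W.K] W.H U),
      frob Φ (Z.prod U) (A * t) (kunnethMap (W.map (fst Z U)) (W.map (snd Z U)) x) =
        kunnethMap (W.map (fst Z U)) (W.map (snd Z U))
          (TensorProduct.map (frob Φ Z (B * t)) (frob Φ U (C * t)) x) := by
  obtain ⟨a, b, ha, hb, hab, h1⟩ := frob_comm Φ (fst Z U)
  obtain ⟨a', b', ha', hb', hab', h2⟩ := frob_comm Φ (snd Z U)
  refine ⟨a * a', b * a', b' * a, Nat.mul_pos ha ha', Nat.mul_pos hb ha', Nat.mul_pos hb' ha,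
    ?_, ?_, ?_⟩
  · calc a * a' * Φ.e (Z.prod U) = (a * Φ.e (Z.prod U)) * a' := by ring
      _ = b * a' * Φ.e Z := by rw [hab]; ring
  · calc a * a' * Φ.e (Z.prod U) = (a' * Φ.e (Z.prod U)) * a := by ring
      _ = b' * a * Φ.e U := by rw [hab']; ring
  · intro t x
    induction x using TensorProduct.induction_on with
    | zero => rw [map_zero, map_zero, map_zero, map_zero]
    | add x y hx hy => rw [map_add, map_add, hx, hy, map_add, map_add]
    | tmul x y =>
      change W.map _ (W.map (fst Z U) x * W.map (snd Z U) y) =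
        W.map (fst Z U) (W.map (W534.iter (Φ.Fr Z) (b * a' * t)) x) *
          W.map (snd Z U) (W.map (W534.iter (Φ.Fr U) (b' * a * t)) y)
      rw [map_mul]
      congr 1
      · rw [show b * a' * t = b * (a' * t) by ring, ← h1]
        congr 3
        ring
      · rw [show b' * a * t = b' * (a * t) by ring, ← h2]
        congr 3
        ring

/-- An operator intertwined with another one. -/
lemma killed_of_comm {K V V' : Type*} [Field K] [AddCommGroup V] [Module K V] [AddCommGroup V']
    [Module K V'] {T : Module.End K V} {T' : Module.End K V'} (f : V →ₗ[K] V')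
    (hf : ∀ x, T' (f x) = f (T x)) (μ : K) (a : ℕ) (x : V) :
    ((T' - μ • (1 : Module.End K V')) ^ a) (f x) =
      f (((T - μ • (1 : Module.End K V)) ^ a) x) := by
  induction a generalizing x with
  | zero => rfl
  | succ a ih =>
    rw [pow_succ, pow_succ, Module.End.mul_apply, Module.End.mul_apply, ← ih]
    congr 1
    rw [LinearMap.sub_apply, LinearMap.smul_apply, Module.End.one_apply, hf, LinearMap.sub_apply,
      LinearMap.smul_apply, Module.End.one_apply, map_sub, map_smul]

lemma pow_comm' {K V V' : Type*} [Field K] [AddCommGroup V] [Module K V] [AddCommGroup V']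
    [Module K V'] {T : Module.End K V} {T' : Module.End K V'} (f : V →ₗ[K] V')
    (hf : ∀ x, T' (f x) = f (T x)) (M : ℕ) (x : V) : (T' ^ M) (f x) = f ((T ^ M) x) := by
  induction M generalizing x with
  | zero => rfl
  | succ a ih => rw [pow_succ, pow_succ, Module.End.mul_apply, Module.End.mul_apply, hf, ih]

lemma killed_comm {K V V' : Type*} [Field K] [AddCommGroup V] [Module K V] [AddCommGroup V']
    [Module K V'] {T : Module.End K V} {T' : Module.End K V'} (f : V →ₗ[K] V')
    (hf : ∀ x, T' (f x) = f (T x)) {μ : K} {a : ℕ} {x : V} (h : Killed T μ a x) :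
    Killed T' μ a (f x) := by
  obtain ⟨M, hM, h⟩ := h
  exact ⟨M, hM, by rw [killed_of_comm f (pow_comm' f hf M), h, map_zero]⟩

lemma killed_comm_iff {K V V' : Type*} [Field K] [AddCommGroup V] [Module K V] [AddCommGroup V']
    [Module K V'] {T : Module.End K V} {T' : Module.End K V'} (f : V →ₗ[K] V')
    (hi : Function.Injective f)
    (hf : ∀ x, T' (f x) = f (T x)) {μ : K} {a : ℕ} {x : V} :
    Killed T' μ a (f x) ↔ Killed T μ a x := by
  refine ⟨?_, killed_comm f hf⟩
  rintro ⟨M, hM, h⟩
  refine ⟨M, hM, hi ?_⟩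
  rw [← killed_of_comm f (pow_comm' f hf M), h, map_zero]

lemma killed_mul' {K V : Type*} [Field K] [AddCommGroup V] [Module K V] {T : Module.End K V}
    {μ : K} {a : ℕ} {x : V} {N : ℕ} (hN : 0 < N) :
    Killed (T ^ N) (μ ^ N) a x ↔ Killed T μ a x := by
  constructor
  · rintro ⟨M, hM, h⟩
    exact ⟨N * M, Nat.mul_pos hN hM, by rwa [pow_mul, pow_mul]⟩
  · rintro ⟨M, hM, h⟩
    refine ⟨M, hM, ?_⟩
    rw [← pow_mul, ← pow_mul, mul_comm N M]
    exact killed_mul h N

lemma killed_frob_mul {s N a c : ℕ} (hN : 0 < N) {x : W.H X} :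
    Killed (frob Φ X (s * N)) ((card Φ X (s * N) : W.K) ^ c) a x ↔
      Killed (frob Φ X s) ((card Φ X s : W.K) ^ c) a x := by
  rw [frob_mul_eq, card_mul_eq, Nat.cast_pow, ← pow_mul, mul_comm N c, pow_mul]
  exact killed_mul' hN

lemma cycSub_eq (X : 𝒱.Obj) (i : ℕ) : cycSub W X i = spanCycles W X i := by
  rw [cycSub, spanCycles]
  congr 1
  ext x
  constructor
  · rintro ⟨z, hz, rfl⟩
    exact ⟨i, rfl, z, hz, rfl⟩
  · rintro ⟨j, hj, z, hz, rfl⟩
    obtain rfl : j = i := by exact_mod_cast hj
    exact ⟨z, hz, rfl⟩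

lemma cycSub_gr {i : ℕ} {x : W.H X} (hx : x ∈ cycSub W X i) : x ∈ W.gr X (2 * i) := by
  rw [cycSub] at hx
  refine Submodule.span_le.2 ?_ hx
  rintro _ ⟨z, hz, rfl⟩
  exact W.cl_mem hz

lemma cycSub_ext {i j : ℕ} {x : W.H Z} {y : W.H U} (hx : x ∈ cycSub W Z i)
    (hy : y ∈ cycSub W U j) : ext W x y ∈ cycSub W (Z.prod U) (i + j) := by
  rw [cycSub] at hx hy
  induction hx using Submodule.span_induction with
  | mem x hx =>
    obtain ⟨z, hz, rfl⟩ := hx
    induction hy using Submodule.span_induction with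
    | mem y hy =>
      obtain ⟨z', hz', rfl⟩ := hy
      refine Submodule.subset_span ⟨ops.mul (ops.pull (fst Z U) z) (ops.pull (snd Z U) z'),
        ops.mul_mem (ops.pull_mem _ hz) (ops.pull_mem _ hz'), ?_⟩
      rw [W.cl_mul, W.cl_pull, W.cl_pull]
      rfl
    | zero => rw [ext, map_zero, mul_zero]; exact Submodule.zero_mem _
    | add x y _ _ hx hy =>
      rw [ext, map_add, mul_add]; exact Submodule.add_mem _ hx hy
    | smul c x _ hx => rw [ext, map_smul, mul_smul_comm]; exact Submodule.smul_mem _ _ hx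
  | zero => rw [ext, map_zero, zero_mul]; exact Submodule.zero_mem _
  | add x y _ _ hx hy => rw [ext, map_add, add_mul]; exact Submodule.add_mem _ hx hy
  | smul c x _ hx => rw [ext, map_smul, smul_mul_assoc]; exact Submodule.smul_mem _ _ hx

/-- **The Tate conjecture for `Z × U`**, if the Tate classes on the products of `Z` split. -/
theorem tateK_prod_iff [IsAlgClosed W.K] (hp : 1 < p) (hT : TateTimesP Φ PP Z) (h1PP : PP 1)
    (hpow : ∀ ν (n : ℕ), 0 < n → PP ν → PP (ν ^ n))
    (hU : ∀ ν, Module.End.HasEigenvalue (W.map (Φ.Fr U)).toLinearMap ν → PP ν) {a c : ℕ} :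
    TateK Φ (Z.prod U) a c ↔
      ∀ i ≤ c, (∃ x, Z.IsCyc i x ∧ ¬ HomEq W x 0) → TateK Φ U a (c - i) := by
  obtain ⟨A, B, C, hA, hB, hC, hAB, hAC, hcomm⟩ := exists_comm Φ Z U
  have hcardB : ∀ t, card Φ (Z.prod U) (A * t) = card Φ Z (B * t) := by
    intro t
    rw [W534.card, W534.card]
    congr 1
    calc Φ.e (Z.prod U) * (A * t) = (A * Φ.e (Z.prod U)) * t := by ring
      _ = _ := by rw [hAB]; ring
  have hcardC : ∀ t, card Φ (Z.prod U) (A * t) = card Φ U (C * t) := by
    intro t
    rw [W534.card, W534.card]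
    congr 1
    calc Φ.e (Z.prod U) * (A * t) = (A * Φ.e (Z.prod U)) * t := by ring
      _ = _ := by rw [hAC]; ring
  set E := kunnethMap (W.map (fst Z U)) (W.map (snd Z U)) with hE
  have hEinj : Function.Injective E := (W.kunneth Z U).1
  constructor
  · rintro h i hi ⟨x₀, hx₀, hne⟩ s hs u hu hk
    rw [HomEq, map_zero] at hne
    have hD := homEqNum_of_tateTimesP hp hT h1PP
    obtain ⟨-, x', hx', htr⟩ := exists_partner hD ⟨x₀, hx₀, rfl⟩ hne
    have hcx : W.cl Z x₀ ∈ cycSub W Z i := Submodule.subset_span ⟨x₀, hx₀, rfl⟩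
    -- the product is killed
    have hgr : ext W (W.cl Z x₀) u ∈ W.gr (Z.prod U) (2 * c) := by
      have h1 := W.mul_mem (W.map_mem (fst Z U) (W.cl_mem hx₀)) (W.map_mem (snd Z U) hu)
      rwa [show 2 * i + 2 * (c - i) = 2 * c by omega] at h1
    have hk1 : Killed (frob Φ U (C * s)) ((card Φ U (C * s) : W.K) ^ (c - i)) a u := by
      rw [mul_comm C s]
      exact (killed_frob_mul hC).2 hk
    obtain ⟨M, hM, hkM⟩ := hk1
    obtain ⟨N, hN, hyN⟩ := killed_one_iff.1 (cyc_killed Φ (s := B * s) hcx)
    have hyMN : (frob Φ Z (B * s) ^ (N * M)) (W.cl Z x₀) =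
        ((card Φ Z (B * s) : W.K) ^ i) ^ (N * M) • W.cl Z x₀ := by
      have h1 : ((frob Φ Z (B * s) ^ N - (((card Φ Z (B * s) : W.K) ^ i) ^ N) •
          (1 : Module.End W.K (W.H Z))) ^ 1) (W.cl Z x₀) = 0 := by
        rw [pow_one, LinearMap.sub_apply, hyN, LinearMap.smul_apply, Module.End.one_apply,
          sub_self]
      have h2 := killed_mul h1 M
      rwa [pow_one, LinearMap.sub_apply, LinearMap.smul_apply, Module.End.one_apply,
        sub_eq_zero] at h2
    have h3 : Killed (TensorProduct.map (frob Φ Z (B * s)) (frob Φ U (C * s)))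
        ((card Φ Z (B * s) : W.K) ^ c) a (W.cl Z x₀ ⊗ₜ[W.K] u) := by
      refine ⟨N * M, Nat.mul_pos hN hM, ?_⟩
      have h4 := killed_tmul (F := frob Φ Z (B * s)) (G := frob Φ U (C * s))
        (α := (card Φ Z (B * s) : W.K) ^ i) (β := (card Φ Z (B * s) : W.K) ^ (c - i)) hyMN a u
      rw [← pow_add, Nat.add_sub_cancel' hi] at h4
      rw [h4]
      have h5 := killed_mul hkM N
      rw [← hcardC s, hcardB s, mul_comm M N] at h5
      rw [h5, TensorProduct.tmul_zero, smul_zero]
    have h4 : Killed (frob Φ (Z.prod U) (A * s)) ((card Φ (Z.prod U) (A * s) : W.K) ^ c) a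
        (ext W (W.cl Z x₀) u) := by
      rw [hcardB s]
      exact killed_comm (f := E) (x := W.cl Z x₀ ⊗ₜ[W.K] u) (hcomm s) h3
    have h5 := h (A * s) (Nat.mul_pos hA hs) _ hgr h4
    -- the coefficient
    have h6 : coef W x' (ext W (W.cl Z x₀) u) = W.tr Z (W.cl Z x₀ * x') • u := by
      rw [coef, ext, mul_assoc, ← ((AS.of hx').map (fst Z U)).comm (W.map (snd Z U) u),
        ← mul_assoc, ← map_mul, W.push_snd]
    have h7 : ∀ z ∈ spanCycles W (Z.prod U) c, coef W x' z ∈ spanCycles W U (c - i : ℕ) := by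
      intro z hz
      induction hz using Submodule.span_induction with
      | mem z hz =>
        obtain ⟨j, hj, z, hz, rfl⟩ := hz
        obtain rfl : j = c := by exact_mod_cast hj
        have hdim := (Z.dim_prod U)
        have hxd : i ≤ Z.dim := by
          by_contra hlt
          apply hne
          have h1 := W.cl_mem hx₀
          rw [W.gr_eq_bot Z _ (by omega)] at h1
          exact (Submodule.mem_bot _).1 h1
        have h8 : coef W x' (W.cl _ z) ∈ algClasses W U (j - i) :=
          alg_push (snd Z U) (alg_mul ⟨z, hz, rfl⟩ (alg_map (fst Z U) hx'))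
            (by rw [dim_prod]; omega)
        obtain ⟨w, hw, hw'⟩ := h8
        exact Submodule.subset_span ⟨_, rfl, w, hw, hw'⟩
      | zero => rw [coef, zero_mul, map_zero]; exact Submodule.zero_mem _
      | add x y _ _ hx hy =>
        rw [coef, add_mul, map_add]; exact Submodule.add_mem _ hx hy
      | smul r x _ hx =>
        rw [coef, smul_mul_assoc, map_smul]; exact Submodule.smul_mem _ _ hx
    have h8 := h7 _ h5
    rw [h6] at h8
    exact (Submodule.smul_mem_iff _ htr).1 h8
  · intro h s hs w hw hk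
    rw [← cycSub_eq]
    obtain ⟨x, hx⟩ := (W.kunneth Z U).2 w
    have hk1 : Killed (frob Φ (Z.prod U) (A * s)) ((card Φ (Z.prod U) (A * s) : W.K) ^ c) a
        (E x) := by
      rw [mul_comm A s, hE, hx]
      exact (killed_frob_mul hA).2 hk
    rw [hcardB s, killed_comm_iff E hEinj (hcomm s), ← zpow_natCast] at hk1
    have hG : ∀ ν, Module.End.HasEigenvalue (frob Φ U (C * s)) ν → PP ν := by
      rw [frob_pow_eq']
      exact PP_pow hU hpow (Nat.mul_pos hC hs)
    have h1 := hT (B * s) (Nat.mul_pos hB hs) (W.H U) (frob Φ U (C * s)) hG c a x hk1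
    -- projection to the degree `2 c`
    rw [← proj_same (W.isInternal (Z.prod U)) hw, ← hx, ← hE]
    clear hk1 hk hx hw
    induction h1 using Submodule.span_induction with
    | mem t ht =>
      obtain ⟨i, y, v, hy, hv, rfl⟩ := ht
      change proj (W.isInternal (Z.prod U)) (2 * c) (W.map (fst Z U) y * W.map (snd Z U) v) ∈ _
      by_cases hic : i ≤ c
      · have h2 : proj (W.isInternal (Z.prod U)) (2 * c)
            (W.map (fst Z U) y * W.map (snd Z U) v) =
            ext W y (proj (W.isInternal U) (2 * (c - i)) v) := by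
          refine gr_induction (W.isInternal U) (p := fun v =>
            proj (W.isInternal (Z.prod U)) (2 * c) (W.map (fst Z U) y * W.map (snd Z U) v) =
              ext W y (proj (W.isInternal U) (2 * (c - i)) v)) ?_ ?_ v
          · intro l b hb
            have h3 := W.mul_mem (W.map_mem (fst Z U) (cycSub_gr hy)) (W.map_mem (snd Z U) hb)
            by_cases hl : l = 2 * (c - i)
            · subst hl
              rw [show 2 * i + 2 * (c - i) = 2 * c by omega] at h3
              rw [proj_same _ h3, proj_same _ hb]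
              rfl
            · rw [proj_ne _ h3 (by omega), proj_ne _ hb hl, ext, map_zero, mul_zero]
          · intro b b' hb hb'
            simp only [map_add, mul_add, hb, hb', ext]
        rw [h2]
        by_cases hy0 : y = 0
        · rw [hy0, ext, map_zero, zero_mul]
          exact Submodule.zero_mem _
        have h3 : ∃ x, Z.IsCyc i x ∧ ¬ HomEq W x 0 := by
          by_contra hne
          push Not at hne
          apply hy0
          have h4 : cycSub W Z i ≤ ⊥ := by
            rw [cycSub, Submodule.span_le]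
            rintro _ ⟨z, hz, rfl⟩
            have := hne z hz
            rw [HomEq, map_zero] at this
            exact (Submodule.mem_bot _).2 this
          exact (Submodule.mem_bot _).1 (h4 hy)
        have h4 := h i hic h3 (C * s) (Nat.mul_pos hC hs)
          (proj (W.isInternal U) (2 * (c - i)) v) (proj_mem _ _ _) (by
            have h5 : Killed (frob Φ U (C * s)) ((card Φ U (C * s) : W.K) ^ (c - i)) a v := by
              rw [← hcardC, hcardB, ← zpow_natCast, Nat.cast_sub hic]
              exact hv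
            exact killed_comm (f := proj (W.isInternal U) (2 * (c - i)))
              (fun x => (proj_map _ _ _).symm) h5)
        rw [← cycSub_eq] at h4
        have h5 := cycSub_ext hy h4
        rwa [Nat.add_sub_cancel' hic] at h5
      · have h2 : proj (W.isInternal (Z.prod U)) (2 * c)
            (W.map (fst Z U) y * W.map (snd Z U) v) = 0 := by
          refine gr_induction (W.isInternal U) (p := fun v =>
            proj (W.isInternal (Z.prod U)) (2 * c) (W.map (fst Z U) y * W.map (snd Z U) v) =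
              0) ?_ ?_ v
          · intro l b hb
            have h3 := W.mul_mem (W.map_mem (fst Z U) (cycSub_gr hy)) (W.map_mem (snd Z U) hb)
            exact proj_ne _ h3 (by omega)
          · intro b b' hb hb'
            simp only [map_add, mul_add, hb, hb', add_zero]
        rw [h2]
        exact Submodule.zero_mem _
    | zero => rw [map_zero, map_zero]; exact Submodule.zero_mem _
    | add x y _ _ hx hy => rw [map_add, map_add]; exact Submodule.add_mem _ hx hy
    | smul r x _ hx => rw [map_smul, map_smul]; exact Submodule.smul_mem _ _ hx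

end Pool.Agent.Y138.TU
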